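import Pool.Agent.H2.SPL.ExpectationFormProof

set_option autoImplicit false

open MeasureTheory Filter Topology

namespace Pool.Agent.Results.MP_c6df36_pr.ExpectationForm

/-- For every admissible pair of exponents and every constant `C > 0`, the expectation
`E (min_σ M_n(σ))` grows faster than every exponential `e^{Kn}`; in particular it is not `O(n)`. -/
theorem result :
    ∀ α₁ α₂ : ℝ, 0 < α₁ → 0 < α₂ → 1 / α₁ + 1 / α₂ = 1 / 2 →
      ∀ C : ℝ, 0 < C → ∀ K : ℝ,
        ∀ᶠ n : ℕ in atTop, Real.exp (K * n) < expectedMin α₁ α₂ C n :=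
  result_proof

end Pool.Agent.Results.MP_c6df36_pr.ExpectationForm
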