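import Pool.Agent.H37.UMD.Main

set_option autoImplicit false

open MeasureTheory

namespace Pool.Agent.Results.MP_c6df36_pr.UltimateMatching

/-- The uniform distribution on the unit square `[0,1]²`. -/
noncomputable def unifSq : Measure (ℝ × ℝ) :=
  volume.restrict (Set.Icc (0 : ℝ) 1 ×ˢ Set.Icc (0 : ℝ) 1)

/-- The law of `2n` independent uniform points `X_1, …, X_n, Y_1, …, Y_n` of the unit square. -/
noncomputable def law (n : ℕ) : Measure ((Fin n → ℝ × ℝ) × (Fin n → ℝ × ℝ)) :=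
  (Measure.pi fun _ => unifSq).prod (Measure.pi fun _ => unifSq)

/-- The cost `M_n(σ)` of a permutation `σ` for the points `x i` and `y i`. -/
noncomputable def cost (α₁ α₂ C : ℝ) (n : ℕ) (x y : Fin n → ℝ × ℝ)
    (σ : Equiv.Perm (Fin n)) : ℝ :=
  max (∑ i, Real.exp ((1 / C * √((n : ℝ) / Real.log n) * |(x i).1 - (y (σ i)).1|) ^ α₁))
      (∑ i, Real.exp ((1 / C * √((n : ℝ) / Real.log n) * |(x i).2 - (y (σ i)).2|) ^ α₂))

/-- The minimum of `M_n(σ)` over all permutations `σ`. -/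
noncomputable def minCost (α₁ α₂ C : ℝ) (n : ℕ) (x y : Fin n → ℝ × ℝ) : ℝ :=
  Finset.univ.inf' Finset.univ_nonempty (fun σ => cost α₁ α₂ C n x y σ)

/-- **Talagrand's ultimate matching theorem in dimension two.** -/
theorem result : ∀ α₁ α₂ : ℝ, 0 < α₁ → 0 < α₂ → 1 / α₁ + 1 / α₂ = 1 / 2 →
    ∀ ε : ℝ, 0 < ε → ∀ p : ℕ, ∃ C : ℝ, 0 < C ∧ ∀ n : ℕ, 2 ≤ n →
      law n {z | (1 + ε) * n < minCost α₁ α₂ C n z.1 z.2} ≤ ENNReal.ofReal (1 / (n : ℝ) ^ p) ∧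
      ∫ z, min (minCost α₁ α₂ C n z.1 z.2) ((n : ℝ) ^ p) ∂(law n) ≤ (1 + ε) * n := by
  intro α₁ α₂ h₁ h₂ h
  exact Pool.UMD.Trunc_main h₁ h₂ (Pool.UMD.main_matchHP h₁ h₂ h)

end Pool.Agent.Results.MP_c6df36_pr.UltimateMatching
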